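import Pool.Agent.Q99.FH.Height
import Pool.Agent.Q99.CT.Deg

/-!
# Solvable groups of large Fitting height with few zeros in the character table
-/

set_option autoImplicit false
set_option linter.style.haveILetI false

open scoped BigOperators Classical
open Pool.Agent.Helper884 Pool.Agent.Q99 Pool.Agent.Q99.FH

noncomputable section

namespace Pool.Agent.Results.MP_c522d4_al.FewZeros

/-- The irreducible complex characters of `G`. -/
abbrev IrrType (G : Type) [Group G] : Type := {χ : G → ℂ // IC.IsIrrChar χ}

/-- The proportion of the zero entries of the character table: the number of the pairs (conjugacy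
class `C`, irreducible character `χ`) with `χ = 0` on `C`, divided by the number of the conjugacy
classes times the number of the irreducible characters. -/
def zeroProportion (G : Type) [Group G] : ℝ :=
  (Nat.card {x : ConjClasses G × IrrType G // ∀ g ∈ x.1.carrier, x.2.1 g = 0} : ℝ) /
    ((Nat.card (ConjClasses G) : ℝ) * (Nat.card (IrrType G) : ℝ))

section count

variable {p m : ℕ} {H : Type} [Group H] [Finite H] [hp : Fact p.Prime]

instance fEx : Fintype (Ex p m H) := Fintype.ofFinite _
instance fCl : Fintype (ConjClasses (Ex p m H)) := Fintype.ofFinite _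
instance fH : Fintype H := Fintype.ofFinite _

/-- The element of the normal subgroup. -/
theorem eq_tr {g : Ex p m H} (hg : g.right = 1) : g = tr (g.left.toAdd) := by
  apply SemidirectProduct.ext
  · rfl
  · exact hg

theorem right_conj {g h : Ex p m H} (e : IsConj g h) (hg : g.right = 1) : h.right = 1 := by
  obtain ⟨c, rfl⟩ := isConj_iff.mp e
  have : (SemidirectProduct.rightHom (c * g * c⁻¹) : H) = 1 := by
    rw [map_mul, map_mul]
    have h1 : (SemidirectProduct.rightHom g : H) = 1 := hg
    rw [h1, mul_one, map_inv, mul_inv_cancel]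
  exact this

/-- The classes inside of the normal subgroup. -/
def inn (p m : ℕ) (H : Type) [Group H] [Finite H] [Fact p.Prime] :
    Finset (ConjClasses (Ex p m H)) :=
  Finset.univ.filter fun c => ∃ g : Ex p m H, ConjClasses.mk g = c ∧ g.right = 1

/-- The classes outside of the normal subgroup. -/
def out (p m : ℕ) (H : Type) [Group H] [Finite H] [Fact p.Prime] :
    Finset (ConjClasses (Ex p m H)) :=
  Finset.univ.filter fun c => ¬ ∃ g : Ex p m H, ConjClasses.mk g = c ∧ g.right = 1

theorem mem_inn {c : ConjClasses (Ex p m H)} :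
    c ∈ inn p m H ↔ ∃ g : Ex p m H, ConjClasses.mk g = c ∧ g.right = 1 := by simp [inn]

theorem mem_out {c : ConjClasses (Ex p m H)} :
    c ∈ out p m H ↔ ¬ ∃ g : Ex p m H, ConjClasses.mk g = c ∧ g.right = 1 := by simp [out]

/-- conjugates by elements of the normal subgroup -/
theorem conj_by_tr (f : Mod p m H) (g : Ex p m H) :
    tr f * g * (tr f)⁻¹ = tr ((1 - act p m H g.right) f) * g := by
  rw [← comm_tr, inv_mul_cancel_right]

theorem class_out_ge {c : ConjClasses (Ex p m H)} (hc : c ∈ out p m H) :
    2 ^ m ≤ (Finset.univ.filter fun g : Ex p m H => ConjClasses.mk g = c).card := by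
  obtain ⟨g, rfl⟩ := ConjClasses.exists_rep c
  have hg : g.right ≠ 1 := fun h => (mem_out.mp hc) ⟨g, rfl, h⟩
  -- the function concentrated at one
  let a : H → ZMod p := fun x => if x = 1 then 1 else 0
  let w : (Fin m → Bool) → Mod p m H := fun s i => if s i then a else 0
  let F : (Fin m → Bool) → Ex p m H := fun s => tr (w s) * g * (tr (w s))⁻¹
  have hinj : Function.Injective F := by
    intro s t hst
    have h1 : tr ((1 - act p m H g.right) (w s)) * g = tr ((1 - act p m H g.right) (w t)) * g := by
      rw [← conj_by_tr, ← conj_by_tr]; exact hst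
    have h2 := tr_inj (mul_right_cancel h1)
    funext i
    have h3 := congrFun (congrFun h2 i) 1
    rw [LinearMap.sub_apply, LinearMap.sub_apply, Module.End.one_apply, Module.End.one_apply] at h3
    change w s i 1 - w s i (g.right⁻¹ * 1) = w t i 1 - w t i (g.right⁻¹ * 1) at h3
    have h4 : ∀ s : Fin m → Bool, w s i 1 - w s i (g.right⁻¹ * 1) = if s i then 1 else 0 := by
      intro s
      change (if s i then a else 0) 1 - (if s i then a else 0) (g.right⁻¹ * 1) = _
      split_ifs with h
      · change (if (1 : H) = 1 then (1 : ZMod p) else 0) -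
          (if g.right⁻¹ * 1 = 1 then (1 : ZMod p) else 0) = 1
        rw [if_pos rfl, if_neg, sub_zero]
        rw [mul_one, inv_eq_one]; exact hg
      · exact sub_self 0
    rw [h4, h4] at h3
    by_cases h5 : s i <;> by_cases h6 : t i
    · rw [h5, h6]
    · rw [if_pos h5, if_neg h6] at h3
      exact absurd h3 one_ne_zero
    · rw [if_neg h5, if_pos h6] at h3
      exact absurd h3.symm one_ne_zero
    · rw [Bool.not_eq_true] at h5 h6
      rw [h5, h6]
  have hcard : 2 ^ m = (Finset.univ.image F).card := by
    rw [Finset.card_image_of_injective _ hinj, Finset.card_univ, Fintype.card_fun, Fintype.card_bool,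
      Fintype.card_fin]
  rw [hcard]
  apply Finset.card_le_card
  intro x hx
  obtain ⟨s, -, rfl⟩ := Finset.mem_image.mp hx
  rw [Finset.mem_filter]
  refine ⟨Finset.mem_univ _, ?_⟩
  rw [ConjClasses.mk_eq_mk_iff_isConj]
  exact (isConj_iff.mpr ⟨tr (w s), rfl⟩ : IsConj g _).symm

theorem class_inn_le {c : ConjClasses (Ex p m H)} (hc : c ∈ inn p m H) :
    (Finset.univ.filter fun g : Ex p m H => ConjClasses.mk g = c).card ≤ Nat.card H := by
  obtain ⟨g, rfl, hg⟩ := mem_inn.mp hc
  have hg' := eq_tr hg
  rw [Nat.card_eq_fintype_card, ← Finset.card_univ (α := H)]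
  refine le_trans (Finset.card_le_card ?_) (Finset.card_image_le
    (f := fun h : H => (tr (act p m H h g.left.toAdd) : Ex p m H)))
  intro x hx
  rw [Finset.mem_filter, ConjClasses.mk_eq_mk_iff_isConj] at hx
  obtain ⟨d, hd⟩ := isConj_iff.mp hx.2.symm
  rw [Finset.mem_image]
  refine ⟨d.right, Finset.mem_univ _, ?_⟩
  rw [← hd, ← conj_tr]
  congr 2
  exact hg'.symm

theorem card_ex : Fintype.card (Ex p m H) =
    (Finset.univ.filter fun g : Ex p m H => g.right = 1).card * Nat.card H := by
  have h1 : (Finset.univ.filter fun g : Ex p m H => g.right = 1).card = Nat.card (Mod p m H) := by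
    haveI : Fintype (Mod p m H) := Fintype.ofFinite _
    rw [Nat.card_eq_fintype_card, ← Finset.card_univ]
    symm
    apply Finset.card_bij (fun (f : Mod p m H) _ => (tr f : Ex p m H))
    · intro f _
      rw [Finset.mem_filter]
      exact ⟨Finset.mem_univ _, rfl⟩
    · intro f _ g _ h
      exact tr_inj h
    · intro g hg
      rw [Finset.mem_filter] at hg
      exact ⟨g.left.toAdd, Finset.mem_univ _, (eq_tr hg.2).symm⟩
  rw [h1, ← Nat.card_eq_fintype_card, SemidirectProduct.card]
  rfl

theorem out_bound : (out p m H).card * 2 ^ m ≤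
    (Finset.univ.filter fun g : Ex p m H => g.right = 1).card * Nat.card H := by
  rw [← card_ex, ← Finset.card_univ]
  have h1 : ∑ c ∈ out p m H, (Finset.univ.filter fun g : Ex p m H => ConjClasses.mk g = c).card ≤
      (Finset.univ : Finset (Ex p m H)).card := by
    rw [Finset.card_eq_sum_card_fiberwise (s := (Finset.univ : Finset (Ex p m H)))
      (t := (Finset.univ : Finset (ConjClasses (Ex p m H)))) (f := ConjClasses.mk)
      (fun _ _ => Finset.mem_univ _)]
    exact Finset.sum_le_sum_of_subset (Finset.subset_univ _)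
  refine le_trans ?_ h1
  rw [← smul_eq_mul, ← Finset.sum_const]
  exact Finset.sum_le_sum fun c hc => class_out_ge hc

theorem inn_bound : (Finset.univ.filter fun g : Ex p m H => g.right = 1).card ≤
    (inn p m H).card * Nat.card H := by
  rw [Finset.card_eq_sum_card_fiberwise (s := Finset.univ.filter fun g : Ex p m H => g.right = 1)
      (t := inn p m H) (f := ConjClasses.mk) (fun g hg => by
        have hg' := (Finset.mem_filter.mp (Finset.mem_coe.mp hg)).2
        exact Finset.mem_coe.mpr (mem_inn.mpr ⟨g, rfl, hg'⟩)), ← smul_eq_mul, ← Finset.sum_const]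
  apply Finset.sum_le_sum
  intro c hc
  refine le_trans (Finset.card_le_card ?_) (class_inn_le hc)
  intro g hg
  rw [Finset.mem_filter] at hg ⊢
  exact ⟨Finset.mem_univ _, hg.2⟩

theorem ratio_bound : (out p m H).card * 2 ^ m ≤ (inn p m H).card * Nat.card H ^ 2 := by
  calc (out p m H).card * 2 ^ m ≤
      (Finset.univ.filter fun g : Ex p m H => g.right = 1).card * Nat.card H := out_bound
    _ ≤ ((inn p m H).card * Nat.card H) * Nat.card H := Nat.mul_le_mul_right _ inn_bound
    _ = _ := by ring

/-- No irreducible character vanishes on the normal subgroup. -/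
theorem nonvanishing (hlt : Nat.card H < p) {χ : Ex p m H → ℂ} (hχ : IC.IsIrrChar χ)
    (g : Ex p m H) (hg : g.right = 1) : χ g ≠ 0 := by
  obtain ⟨V, _, _, _, ρ, hρ, rfl⟩ := hχ
  have hdeg := CT.deg_le (SemidirectProduct.rightHom : Ex p m H →* H) SemidirectProduct.inr
    (fun h => SemidirectProduct.rightHom_inr h) (fun x y hx hy => by
      rw [eq_tr hx, eq_tr hy, tr_mul, tr_mul, add_comm]) ρ hρ
  haveI : Nontrivial V := by
    by_contra hn
    rw [not_nontrivial_iff_subsingleton] at hn
    have hsub : Subsingleton (Subrepresentation ρ) := by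
      constructor
      intro a b
      ext x
      have : x = 0 := Subsingleton.elim _ _
      subst this
      simp
    haveI := hρ.toNontrivial
    exact not_subsingleton (Subrepresentation ρ) hsub
  apply CT.ne_zero_of_lt ρ hp.out (lt_of_le_of_lt hdeg hlt) g
  rw [eq_tr hg]
  have : ∀ k : ℕ, (tr g.left.toAdd : Ex p m H) ^ k = tr ((k : ℕ) • g.left.toAdd) := by
    intro k
    induction k with
    | zero => rw [pow_zero, zero_smul, tr_zero]
    | succ k ih => rw [pow_succ, ih, tr_mul, add_smul, one_smul]
  rw [this, ← tr_zero]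
  congr 1
  funext i x
  change p • (g.left.toAdd i x) = 0
  rw [nsmul_eq_mul, ZMod.natCast_self, zero_mul]

theorem proportion_le (hlt : Nat.card H < p) :
    zeroProportion (Ex p m H) ≤ (Nat.card H : ℝ) ^ 2 / 2 ^ m := by
  haveI : Finite (IrrType (Ex p m H)) := IC.irr_finite.to_subtype
  have h1 : Nat.card {x : ConjClasses (Ex p m H) × IrrType (Ex p m H) //
      ∀ g ∈ x.1.carrier, x.2.1 g = 0} ≤ (out p m H).card * Nat.card (IrrType (Ex p m H)) := by
    have e1 : (out p m H).card = Nat.card {c // c ∈ out p m H} := by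
      rw [Nat.card_eq_fintype_card, Fintype.card_coe]
    rw [e1, ← Nat.card_prod]
    refine Nat.card_le_card_of_injective
      (fun x => ((⟨x.1.1, ?_⟩ : {c // c ∈ out p m H}), x.1.2)) ?_
    · rw [mem_out]
      rintro ⟨g, hg, hg1⟩
      have h2 : g ∈ x.1.1.carrier := by
        rw [ConjClasses.mem_carrier_iff_mk_eq]; exact hg
      exact nonvanishing hlt x.1.2.2 g hg1 (x.2 g h2)
    · intro x y hxy
      rw [Prod.mk.injEq, Subtype.mk.injEq] at hxy
      exact Subtype.ext (Prod.ext hxy.1 hxy.2)
  have h2 := ratio_bound (p := p) (m := m) (H := H)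
  have h3 : (inn p m H).card ≤ Nat.card (ConjClasses (Ex p m H)) := by
    rw [Nat.card_eq_fintype_card]
    exact Finset.card_le_univ _
  have hk : 0 < Nat.card (ConjClasses (Ex p m H)) := Nat.card_pos
  unfold zeroProportion
  set Z := Nat.card {x : ConjClasses (Ex p m H) × IrrType (Ex p m H) //
      ∀ g ∈ x.1.carrier, x.2.1 g = 0}
  set k := Nat.card (ConjClasses (Ex p m H))
  set I := Nat.card (IrrType (Ex p m H))
  rcases Nat.eq_zero_or_pos I with hI | hI
  · rw [hI]
    simp only [Nat.cast_zero, mul_zero, div_zero]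
    positivity
  · have hk' : (0 : ℝ) < k := by exact_mod_cast hk
    have hI' : (0 : ℝ) < I := by exact_mod_cast hI
    rw [div_le_div_iff₀ (mul_pos hk' hI') (by positivity)]
    have h4 : Z * 2 ^ m ≤ Nat.card H ^ 2 * (k * I) := by
      calc Z * 2 ^ m ≤ (out p m H).card * I * 2 ^ m := Nat.mul_le_mul_right _ h1
        _ = ((out p m H).card * 2 ^ m) * I := by ring
        _ ≤ ((inn p m H).card * Nat.card H ^ 2) * I := Nat.mul_le_mul_right _ h2
        _ ≤ (k * Nat.card H ^ 2) * I := Nat.mul_le_mul_right _ (Nat.mul_le_mul_right _ h3)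
        _ = _ := by ring
    exact_mod_cast h4

end count

/-- For every `h ≥ 1` and `ε > 0` there is a finite solvable group `G` of Fitting height `h` such
that the proportion of the zero entries in the character table of `G` is less than `ε`. -/
theorem result (h : ℕ) (hh : 1 ≤ h) (ε : ℝ) (hε : 0 < ε) : ∃ (G : Type) (_ : Group G),
    Finite G ∧ Group.IsSolvable G ∧ fitHeight G = h ∧ zeroProportion G < ε := by
  obtain ⟨H, _, hfin, hsol, hH⟩ := exists_height (h - 1)
  obtain ⟨p, hle, hp⟩ := Nat.exists_infinite_primes (Nat.card H + 1)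
  haveI : Fact p.Prime := ⟨hp⟩
  have hco : Nat.Coprime p (Nat.card H) := by
    rw [hp.coprime_iff_not_dvd]
    intro h
    have := Nat.le_of_dvd Nat.card_pos h
    omega
  haveI := hsol
  obtain ⟨m, hm⟩ : ∃ m : ℕ, (Nat.card H : ℝ) ^ 2 / ε < 2 ^ (m + 1) := by
    obtain ⟨m, hm⟩ := pow_unbounded_of_one_lt ((Nat.card H : ℝ) ^ 2 / ε) (one_lt_two)
    exact ⟨m, hm.trans (pow_lt_pow_right₀ one_lt_two (Nat.lt_succ_self m))⟩
  refine ⟨Ex p (m + 1) H, inferInstance, inferInstance, solvable_ex, ?_, ?_⟩
  · have key : ∀ n, HeightLE n (Ex p (m + 1) H) ↔ h ≤ n := by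
      intro n
      rcases n with _ | n
      · constructor
        · intro h'
          have h'' : Subsingleton (Ex p (m + 1) H) := h'
          haveI := nontrivial_ex (p := p) (m := m + 1) (H := H) (Nat.succ_pos m)
          exact absurd h'' (not_subsingleton _)
        · intro h; omega
      · rw [heightLE_ex (Nat.succ_pos m) hco, hH]
        omega
    unfold fitHeight
    have : {n | HeightLE n (Ex p (m + 1) H)} = Set.Ici h := by
      ext n
      exact key n
    rw [this]
    exact csInf_Ici
  · refine lt_of_le_of_lt (proportion_le (by omega)) ?_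
    rw [div_lt_iff₀ (by positivity)]
    rw [div_lt_iff₀ hε] at hm
    linarith

end Pool.Agent.Results.MP_c522d4_al.FewZeros
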